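import Mathlib

/-!
# Project KG: a global solution of the Keller-Segel system with initially decreasing second moment

Dimension three. The solution is `n t x = ∫ cos ⟪ξ, x⟫ * f t ξ dξ`, where `f` solves an integral
equation in the Fourier variable.
-/

open MeasureTheory Set Metric Filter Topology Real
open scoped ContDiff

noncomputable section

namespace Pool.Agent.W787.KG

abbrev E := EuclideanSpace ℝ (Fin 3)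

/-- Product weight. -/
def Wg (p : ℕ) (σ L : ℝ) (ξ : E) : ℝ :=
  1 / ((1 + σ * |ξ 0|) * (1 + σ * |ξ 1|) * (1 + L * |ξ 2|)) ^ p

/-- Weight of the fixed point space. -/
def wt (L t : ℝ) (ξ : E) : ℝ := L * Wg 6 (Real.sqrt (t + 1)) L ξ

/-- Bilinear term `∫ (ξ·η/|η|²) f(ξ-η) h(η) dη`. -/
def NN (f h : E → ℝ) (ξ : E) : ℝ := ∫ η, inner ℝ ξ η / ‖η‖ ^ 2 * f (ξ - η) * h η

/-- Inverse cosine transform. -/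
def CT (f : E → ℝ) (x : E) : ℝ := ∫ ξ, Real.cos (inner ℝ ξ x) * f ξ

/-- Gradient of the potential. -/
def VV (f : E → ℝ) (x : E) : E := ∫ η, (-(Real.sin (inner ℝ η x) * f η / ‖η‖ ^ 2)) • η

/-- Fourier data. -/
def f0 (A L : ℝ) (ξ : E) : ℝ :=
  A * L * Real.exp (-(ξ 0) ^ 2 - (ξ 1) ^ 2 - L ^ 2 * (ξ 2) ^ 2)

/-- Initial density. -/
def n0 (A L : ℝ) (x : E) : ℝ :=
  A * (Real.sqrt π) ^ 3 * Real.exp (-((x 0) ^ 2 + (x 1) ^ 2) / 4 - (x 2) ^ 2 / (4 * L ^ 2))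

/-! ### Weights -/

/-- One-dimensional convolution inequality with singularity. -/
def S_1A : Prop := ∀ p : ℕ, 2 ≤ p → ∃ C : ℝ, 0 < C ∧ ∀ σ y : ℝ, 0 < σ →
  Integrable (fun z : ℝ => 1 / Real.sqrt |z| * (1 / (1 + σ * |y - z|) ^ p)
    * (1 / (1 + σ * |z|) ^ p)) ∧
  ∫ z : ℝ, 1 / Real.sqrt |z| * (1 / (1 + σ * |y - z|) ^ p) * (1 / (1 + σ * |z|) ^ p)
    ≤ C / Real.sqrt σ * (1 / (1 + σ * |y|) ^ p)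

/-- One-dimensional convolution inequality. -/
def S_1B : Prop := ∀ p : ℕ, 2 ≤ p → ∃ C : ℝ, 0 < C ∧ ∀ σ y : ℝ, 0 < σ →
  Integrable (fun z : ℝ => (1 / (1 + σ * |y - z|) ^ p) * (1 / (1 + σ * |z|) ^ p)) ∧
  ∫ z : ℝ, (1 / (1 + σ * |y - z|) ^ p) * (1 / (1 + σ * |z|) ^ p)
    ≤ C / σ * (1 / (1 + σ * |y|) ^ p)

/-- Integrals of products of functions of one coordinate. -/
def S_PR : Prop :=
  (∀ F0 F1 F2 : ℝ → ℝ, Integrable F0 → Integrable F1 → Integrable F2 →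
    Integrable (fun ξ : E => F0 (ξ 0) * F1 (ξ 1) * F2 (ξ 2)) ∧
    ∫ ξ : E, F0 (ξ 0) * F1 (ξ 1) * F2 (ξ 2) = (∫ z, F0 z) * (∫ z, F1 z) * (∫ z, F2 z)) ∧
  (∀ F0 F1 F2 : ℝ → ℂ, Integrable F0 → Integrable F1 → Integrable F2 →
    Integrable (fun ξ : E => F0 (ξ 0) * F1 (ξ 1) * F2 (ξ 2)) ∧
    ∫ ξ : E, F0 (ξ 0) * F1 (ξ 1) * F2 (ξ 2) = (∫ z, F0 z) * (∫ z, F1 z) * (∫ z, F2 z))

/-- Convolution inequality for the product weight. -/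
def S_PB : Prop := ∀ p : ℕ, 2 ≤ p → ∃ C : ℝ, 0 < C ∧ ∀ (σ L : ℝ) (ξ : E), 0 < σ → 0 < L →
  Integrable (fun η : E => 1 / ‖η‖ * Wg p σ L (ξ - η) * Wg p σ L η) ∧
  ∫ η : E, 1 / ‖η‖ * Wg p σ L (ξ - η) * Wg p σ L η ≤ C / (σ * L) * Wg p σ L ξ

/-- Integrability of the weights. -/
def S_WI : Prop := ∀ p : ℕ, 2 ≤ p → Integrable (Wg p 1 1) ∧
  Integrable (fun η : E => 1 / ‖η‖ * Wg p 1 1 η)

/-- Elementary facts on the weights. -/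
def S_WE : Prop :=
  (∀ (p : ℕ) (σ L : ℝ) (ξ : E), 0 < σ → 0 < L → 0 < Wg p σ L ξ ∧ Wg p σ L (-ξ) = Wg p σ L ξ) ∧
  (∀ (L t : ℝ) (ξ : E), 1 ≤ L → 0 ≤ t → 0 < wt L t ξ ∧ wt L t ξ ≤ L * Wg 6 1 1 ξ) ∧
  (∀ (p k : ℕ) (ξ : E), k ≤ p → ‖ξ‖ ^ k * Wg p 1 1 ξ ≤ Wg (p - k) 1 1 ξ) ∧
  (∀ (p k : ℕ) (ξ : E), k ≤ p → Wg p 1 1 ξ ≤ Wg k 1 1 ξ) ∧
  (∀ p : ℕ, Continuous (Wg p 1 1))

/-- Bound of the bilinear term. -/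
def S_NB : Prop := ∀ p : ℕ, 2 ≤ p → ∃ C : ℝ, 0 < C ∧ ∀ (σ L a b : ℝ) (f h : E → ℝ), 0 < σ →
  0 < L → 0 ≤ a → 0 ≤ b → Continuous f → Continuous h →
  (∀ ξ, |f ξ| ≤ a * Wg p σ L ξ) → (∀ ξ, |h ξ| ≤ b * Wg p σ L ξ) → ∀ ξ : E,
  Integrable (fun η : E => inner ℝ ξ η / ‖η‖ ^ 2 * f (ξ - η) * h η) ∧
  |NN f h ξ| ≤ C / (σ * L) * a * b * ‖ξ‖ * Wg p σ L ξ

/-- Duhamel estimate. -/
def S_DU : Prop := ∃ C : ℝ, 0 < C ∧ ∀ (L t : ℝ) (ξ : E), 0 < L → 0 ≤ t →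
  ∫ s in (0 : ℝ)..t, Real.exp (-(t - s) * ‖ξ‖ ^ 2) * ‖ξ‖ / Real.sqrt (s + 1)
    * Wg 6 (Real.sqrt (s + 1)) L ξ ≤ C * Wg 6 (Real.sqrt (t + 1)) L ξ

/-- Continuity of the bilinear term. -/
def S_NC : Prop := ∀ (f h : ℝ → E → ℝ) (K : ℝ), Continuous (fun z : ℝ × E => f z.1 z.2) →
  Continuous (fun z : ℝ × E => h z.1 z.2) → (∀ t ξ, |f t ξ| ≤ K * Wg 2 1 1 ξ) →
  (∀ t ξ, |h t ξ| ≤ K * Wg 2 1 1 ξ) →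
  Continuous (fun z : ℝ × E => NN (f z.1) (h z.1) z.2)

/-! ### Solution in the Fourier variable -/

/-- The integral equation. -/
def IE (f : ℝ → E → ℝ) : Prop := ∀ (t : ℝ) (ξ : E), 0 ≤ t →
  f t ξ = Real.exp (-t * ‖ξ‖ ^ 2) * f 0 ξ
    + ∫ s in (0 : ℝ)..t, Real.exp (-(t - s) * ‖ξ‖ ^ 2) * NN (f s) (f s) ξ

/-- Duhamel bilinear operator, for all times (frozen at time 0 for negative times). -/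
def BB (f h : ℝ → E → ℝ) (t : ℝ) (ξ : E) : ℝ :=
  ∫ s in (0 : ℝ)..(max t 0), Real.exp (-(max t 0 - s) * ‖ξ‖ ^ 2) * NN (f s) (h s) ξ

/-- Properties of the Duhamel operator. -/
def S_BB : Prop := ∃ C : ℝ, 0 < C ∧ ∀ (L a b : ℝ) (f h : ℝ → E → ℝ), 1 ≤ L → 0 ≤ a → 0 ≤ b →
  Continuous (fun z : ℝ × E => f z.1 z.2) → Continuous (fun z : ℝ × E => h z.1 z.2) →
  (∀ t ξ, |f t ξ| ≤ a * wt L (max t 0) ξ) → (∀ t ξ, |h t ξ| ≤ b * wt L (max t 0) ξ) →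
  Continuous (fun z : ℝ × E => BB f h z.1 z.2) ∧
  (∀ t ξ, |BB f h t ξ| ≤ C * a * b * wt L (max t 0) ξ) ∧
  (∀ t ξ, BB f f t ξ - BB h h t ξ
    = BB (fun t ξ => f t ξ - h t ξ) f t ξ + BB h (fun t ξ => f t ξ - h t ξ) t ξ)

/-- The fixed point. -/
def S_FIX : Prop := ∃ a : ℝ, 0 < a ∧ ∀ (L : ℝ) (g : E → ℝ), 1 ≤ L → Continuous g →
  (∀ ξ, g (-ξ) = g ξ) → (∀ t ξ, 0 ≤ t → Real.exp (-t * ‖ξ‖ ^ 2) * |g ξ| ≤ a * wt L t ξ) →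
  ∃ f : ℝ → E → ℝ, Continuous (fun z : ℝ × E => f z.1 z.2) ∧ f 0 = g ∧
    (∀ t, t ≤ 0 → f t = f 0) ∧ (∀ t ξ, f t (-ξ) = f t ξ) ∧
    (∀ t ξ, |f t ξ| ≤ 2 * a * L * Wg 6 1 1 ξ) ∧ IE f

/-- Time derivatives. -/
def S_TD : Prop := ∀ (f : ℝ → E → ℝ) (K : ℝ), Continuous (fun z : ℝ × E => f z.1 z.2) →
  (∀ t ξ, |f t ξ| ≤ K * Wg 6 1 1 ξ) → IE f →
  ∃ (b c : ℝ → E → ℝ) (K' : ℝ), (∀ t ξ, b t ξ = -‖ξ‖ ^ 2 * f t ξ + NN (f t) (f t) ξ) ∧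
    Continuous (fun z : ℝ × E => b z.1 z.2) ∧ Continuous (fun z : ℝ × E => c z.1 z.2) ∧
    (∀ t ξ, |b t ξ| ≤ K' * Wg 4 1 1 ξ) ∧ (∀ t ξ, |c t ξ| ≤ K' * Wg 2 1 1 ξ) ∧
    (∀ t ξ, |NN (f t) (f t) ξ| ≤ K' * Wg 4 1 1 ξ) ∧
    (∀ t ξ, 0 < t → HasDerivAt (fun s => f s ξ) (b t ξ) t ∧
      HasDerivAt (fun s => b s ξ) (c t ξ) t)

/-! ### Physical space -/

/-- Spatial derivatives of the cosine transform. -/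
def S_RX : Prop := ∀ (f : E → ℝ) (K : ℝ), Continuous f → (∀ ξ, |f ξ| ≤ K * Wg 6 1 1 ξ) →
  (∀ x, |CT f x| ≤ K * ∫ ξ, Wg 6 1 1 ξ) ∧
  (∀ x v : E, fderiv ℝ (CT f) x v = -∫ ξ, inner ℝ ξ v * Real.sin (inner ℝ ξ x) * f ξ) ∧
  (∀ x : E, ∑ i : Fin 3, iteratedFDeriv ℝ 2 (CT f) x
    ![EuclideanSpace.single i (1 : ℝ), EuclideanSpace.single i (1 : ℝ)]
    = CT (fun ξ => -‖ξ‖ ^ 2 * f ξ) x)

/-- Joint differentiability of a parametric cosine transform. -/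
def S_C1 : Prop := ∀ (a b : ℝ → E → ℝ) (K θ : ℝ), Continuous (fun z : ℝ × E => a z.1 z.2) →
  Continuous (fun z : ℝ × E => b z.1 z.2) →
  (∀ t ξ, |a t ξ| ≤ K * Wg 3 1 1 ξ) → (∀ t ξ, |b t ξ| ≤ K * Wg 2 1 1 ξ) →
  (∀ t ξ, 0 < t → HasDerivAt (fun s => a s ξ) (b t ξ) t) →
  Continuous (fun z : ℝ × E => ∫ ξ, Real.cos (inner ℝ ξ z.2 + θ) * a z.1 ξ) ∧
  Continuous (fun z : ℝ × E => ∫ ξ, Real.cos (inner ℝ ξ z.2 + θ) * b z.1 ξ) ∧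
  ContDiffOn ℝ 1 (fun z : ℝ × E => ∫ ξ, Real.cos (inner ℝ ξ z.2 + θ) * a z.1 ξ)
    (Ioi (0 : ℝ) ×ˢ univ) ∧
  ∀ (t : ℝ) (x : E), 0 < t → ∃ D : ℝ × E →L[ℝ] ℝ,
    HasFDerivAt (fun z : ℝ × E => ∫ ξ, Real.cos (inner ℝ ξ z.2 + θ) * a z.1 ξ) D (t, x) ∧
    ∀ (τ : ℝ) (v : E), D (τ, v) = τ * (∫ ξ, Real.cos (inner ℝ ξ x + θ) * b t ξ)
      + ∫ ξ, Real.cos (inner ℝ ξ x + (θ + π / 2)) * (inner ℝ ξ v * a t ξ)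

/-- Joint regularity of the cosine transform. -/
def S_RT : Prop := ∀ (a b c : ℝ → E → ℝ) (K : ℝ), Continuous (fun z : ℝ × E => a z.1 z.2) →
  Continuous (fun z : ℝ × E => b z.1 z.2) → Continuous (fun z : ℝ × E => c z.1 z.2) →
  (∀ t ξ, |a t ξ| ≤ K * Wg 6 1 1 ξ) → (∀ t ξ, |b t ξ| ≤ K * Wg 4 1 1 ξ) →
  (∀ t ξ, |c t ξ| ≤ K * Wg 2 1 1 ξ) →
  (∀ t ξ, 0 < t → HasDerivAt (fun s => a s ξ) (b t ξ) t ∧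
      HasDerivAt (fun s => b s ξ) (c t ξ) t) →
  Continuous (fun z : ℝ × E => CT (a z.1) z.2) ∧
  ContDiffOn ℝ 2 (fun z : ℝ × E => CT (a z.1) z.2) (Ioi (0 : ℝ) ×ˢ univ) ∧
  ∀ (t : ℝ) (x : E), 0 < t → deriv (fun s => CT (a s) x) t = CT (b t) x

/-- Product formula. -/
def S_PRO : Prop := ∀ (f : E → ℝ) (K : ℝ), Continuous f → (∀ ξ, f (-ξ) = f ξ) →
  (∀ ξ, |f ξ| ≤ K * Wg 6 1 1 ξ) → ∀ x : E,
  CT (NN f f) x = CT f x ^ 2 + ∫ ξ, inner ℝ ξ (VV f x) * Real.sin (inner ℝ ξ x) * f ξ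

/-- Heat kernel. -/
def GK (τ : ℝ) (z : E) : ℝ := (1 / Real.sqrt (4 * π * τ)) ^ 3 * Real.exp (-‖z‖ ^ 2 / (4 * τ))

/-- Heat kernel and cosine transform. -/
def S_GK : Prop := ∀ (f : E → ℝ) (K : ℝ), Continuous f → (∀ ξ, |f ξ| ≤ K * Wg 6 1 1 ξ) →
  ∀ (τ : ℝ) (x v : E), 0 < τ →
  ∫ y, CT f y * (inner ℝ (x - y) v / (2 * τ)) * GK τ (x - y)
    = ∫ η, inner ℝ η v * Real.sin (inner ℝ η x) * Real.exp (-τ * ‖η‖ ^ 2) * f η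

/-- The gradient of the Newton kernel by subordination. -/
def S_RK : Prop := ∀ z : E, z ≠ 0 → IntegrableOn (fun τ : ℝ => 1 / (2 * τ) * GK τ z) (Ioi 0) ∧
  ∫ τ in Ioi (0 : ℝ), 1 / (2 * τ) * GK τ z = 1 / (4 * π * ‖z‖ ^ 3)

/-- Newton potential. -/
def S_NEW : Prop := ∀ (f : E → ℝ) (K : ℝ), Continuous f → (∀ ξ, |f ξ| ≤ K * Wg 6 1 1 ξ) →
  Integrable (CT f) → ∀ x : E,
  (-(1 / (3 * (volume (ball (0 : E) 1)).toReal))) •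
    ∫ y, (CT f y / ‖x - y‖ ^ 3) • (x - y) = VV f x

/-- Positivity. -/
def S_POS : Prop := ∀ (n : ℝ → E → ℝ) (V : ℝ → E → E) (C : ℝ),
  ContinuousOn (fun z : ℝ × E => n z.1 z.2) (Ici (0 : ℝ) ×ˢ univ) →
  ContDiffOn ℝ 2 (fun z : ℝ × E => n z.1 z.2) (Ioi (0 : ℝ) ×ˢ univ) →
  (∀ t x, 0 ≤ t → |n t x| ≤ C ∧ ‖V t x‖ ≤ C) →
  (∀ x, 0 ≤ n 0 x) →
  (∀ t x, 0 < t → deriv (fun s => n s x) t
    = (∑ i : Fin 3, iteratedFDeriv ℝ 2 (n t) x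
        ![EuclideanSpace.single i (1 : ℝ), EuclideanSpace.single i (1 : ℝ)])
      - fderiv ℝ (n t) x (V t x) + n t x ^ 2) →
  ∀ t x, 0 ≤ t → 0 ≤ n t x

/-- A nonnegative cosine transform is integrable. -/
def S_L1 : Prop := ∀ (f : E → ℝ) (K : ℝ), Continuous f → (∀ ξ, |f ξ| ≤ K * Wg 6 1 1 ξ) →
  (∀ x, 0 ≤ CT f x) → Integrable (CT f)

/-! ### Data -/

/-- The initial data: transform. -/
def S_DA1 : Prop := ∀ A L : ℝ, 0 < A → 1 ≤ L → Continuous (f0 A L) ∧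
    (∀ ξ, f0 A L (-ξ) = f0 A L ξ) ∧ (∀ x, CT (f0 A L) x = n0 A L x)

/-- The initial data: integrals. -/
def S_DA2 : Prop := ∀ A L : ℝ, 0 < A → 1 ≤ L →
    Continuous (n0 A L) ∧ (∀ x, 0 ≤ n0 A L x) ∧ (∃ C : ℝ, ∀ x, n0 A L x ≤ C) ∧
    Integrable (n0 A L) ∧ Integrable (fun x : E => ‖x‖ ^ 2 * n0 A L x) ∧
    ∫ x, n0 A L x = 8 * π ^ 3 * A * L

/-- The initial data: bound. -/
def S_DA3 : Prop := ∃ C : ℝ, 0 < C ∧ ∀ (A L t : ℝ) (ξ : E), 0 < A → 1 ≤ L → 0 ≤ t →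
    Real.exp (-t * ‖ξ‖ ^ 2) * |f0 A L ξ| ≤ C * A * wt L t ξ

/-- The energy integrals of the data converge. -/
def S_EI : Prop := ∀ A L : ℝ, 0 < A → 1 ≤ L →
  (∀ x, Integrable (fun y : E => n0 A L x * n0 A L y / ‖x - y‖)) ∧
  Integrable (fun x : E => ∫ y, n0 A L x * n0 A L y / ‖x - y‖)

/-- The energy of the data is large for long tubes. -/
def S_EN : Prop := ∀ A : ℝ, 0 < A → ∃ L : ℝ, 1 ≤ L ∧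
  24 * π * (8 * π ^ 3 * A * L) < ∫ x, ∫ y, n0 A L x * n0 A L y / ‖x - y‖

end Pool.Agent.W787.KG
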